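import Pool.Agent.Work.MP_8f87b2_h99.Ty9
import Pool.Agent.Work.MP_8f87b2_h68.JMi
import Pool.Agent.Work.MP_8f87b2_h20.S5Ty
import Pool.Agent.Work.MP_8f87b2_h27.DisKm
import Pool.Agent.Work.MP_8f87b2_mid.InAE

/-!
MP_8f87b2_co: the inner words of the nine-word pair gadget JV (`Is9` with empty `P`, `Q`, `S` any tree without part 1 of
height at least 3) against the plain types L, S5, E, K, Km, Cr, Cl.

Inner words: `T(((S))) = be 11000 al`, `T((S())) = be 01100 al`, `T((S)()) = be 10100 al`, where `S = a 1 b` at the first maximum,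
`be`, `al` the complements of `b`, `a`. They start with `111` or `1100` and end with `000` or `1100`; the first has all runs of
length at least 2, in the other two the first single run is a `0`.
-/

set_option autoImplicit false

namespace Pool.OddHC

open Finset Equiv BinaryTree Pool.Agent.Work.MP_8f87b2_co

namespace JVI

open SRun H1

variable {k : ℕ} {S : BinaryTree Unit}

/-- shape of an inner word -/
structure Sh (S : BinaryTree Unit) (x : X k) : Prop where
  st : (∃ v, wd x.1 = true :: true :: true :: v) ∨ ∃ v, wd x.1 = true :: true :: false :: false :: v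
  en : (∃ v, wd x.1 = v ++ [false, false, false]) ∨ ∃ v, wd x.1 = v ++ [true, true, false, false]
  sr : (D2 (wd x.1) ∧ ∃ y : X k, y.1 = (S △ .nil) △ .nil ∧ x = TT y) ∨
    ∃ u l, SR (wd x.1) u false true l ∧ 3 ≤ u.length
  te : ∃ a b m : List Bool, FM S a b ∧ wd x.1 = b.map not ++ (m ++ a.map not) ∧ m.length = 5

theorem raise_two {M : Multiset ℕ} (h : ∀ x ∈ M, 2 ≤ x) (h0 : 1 ≤ M.sup) : ∀ x ∈ raise M, 2 ≤ x := by
  intro x hx
  unfold raise at hx
  rcases Multiset.mem_cons.1 hx with rfl | hx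
  · omega
  · exact h x (Multiset.mem_of_mem_erase hx)

/-- the first letters -/
theorem st_of {b r : List Bool} (h : Aft' 2 b) :
    (∃ v, b.map not ++ r = true :: true :: true :: v) ∨
      ∃ v, b.map not ++ r = true :: true :: false :: false :: v := by
  rcases h with ⟨v, rfl⟩ | ⟨v, rfl⟩
  · left
    exact ⟨v.map not ++ r, by simp [List.replicate]⟩
  · right
    exact ⟨v.map not ++ r, by simp [List.replicate]⟩

/-- the last letters -/
theorem en_of {a l : List Bool} (h : Bef 2 a) :
    (∃ v, l ++ false :: a.map not = v ++ [false, false, false]) ∨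
      ∃ v, l ++ false :: a.map not = v ++ [true, true, false, false] := by
  rcases h with rfl | ⟨v, rfl⟩ | ⟨v, rfl⟩
  · left
    exact ⟨l, by simp [List.replicate]⟩
  · left
    exact ⟨l ++ false :: v.map not, by simp [List.replicate]⟩
  · right
    exact ⟨l ++ false :: v.map not, by simp [List.replicate]⟩

theorem gd (h1 : ∀ x ∈ cont S, 2 ≤ x) (h3 : 3 ≤ OddHC.ht S) : Gd S :=
  ⟨hg_of_cont le_rfl h1, by rintro rfl; exact absurd h3 (by simp [OddHC.ht])⟩

/-- **shape of the three inner words** -/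
theorem shape (h1 : ∀ x ∈ cont S, 2 ≤ x) (h3' : 3 ≤ OddHC.ht S) {w : ℕ → X k} (h : D9 .nil .nil S w) {i : ℕ}
    (hi : i = 3 ∨ i = 4 ∨ i = 5) : Sh S (TT (w i)) := by
  have hS : Gd S := gd h1 h3'
  have h3 : 3 ≤ Tsq.ht S := by rw [H1.ht_eq]; exact h3'
  obtain ⟨a, b, fm, hb, ⟨β, hβ⟩, hl, y, l, hy⟩ := hS.fm h3
  obtain ⟨a', b', ⟨fm', up, dn⟩⟩ := hg_FMT (by norm_num) hS.hg (by omega : 2 < Tsq.ht S)
  obtain ⟨rfl, rfl⟩ := fm.uniq fm'
  have hn : Tsq.ht (.nil : BinaryTree Unit) = 0 := rfl
  rcases hi with rfl | rfl | rfl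
  · have k1 := (fm.node (Z := .nil) (by rw [hn]; omega)).node (Z := .nil) (by rw [hn]; omega)
    have e : (w 3).1 = (S △ .nil) △ .nil := h.word 3 (by norm_num)
    rw [← e] at k1
    have e1 := k1.wdT
    simp only [wd, List.map_append, List.map_cons, List.map_nil, Bool.not_true, Bool.not_false,
      List.append_assoc, List.cons_append, List.nil_append] at e1
    refine ⟨?_, ?_, Or.inl ⟨?_, w 3, e, rfl⟩, a, b, [true, true, false, false, false], fm, by rw [e1]; simp, rfl⟩
    · rw [e1]; exact st_of dn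
    · rw [e1]
      have := en_of (l := b.map not ++ [true, true, false, false]) up
      simpa using this
    · apply D2_hg
      apply hg_of_cont le_rfl
      rw [cont_TT, e]
      change ∀ x ∈ raise (raise (cont S) + cont .nil) + cont .nil, 2 ≤ x
      rw [cont_nil, add_zero, add_zero]
      have h2 : 3 ≤ (cont S).sup := by
        rw [← OddHC.ht_eq, ← H1.ht_eq]; exact h3
      exact raise_two (raise_two h1 (by omega)) (by rw [sup_raise]; omega)
  · have k1 := (fm.app_right (Z := .nil △ .nil) (by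
      rw [Tsq.ht_node, hn]; omega)).node (Z := .nil) (by rw [hn]; omega)
    have e : (w 4).1 = (app S (.nil △ .nil)) △ .nil := h.word 4 (by norm_num)
    rw [← e] at k1
    have e1 := k1.wdT
    simp only [wd, List.map_append, List.map_cons, List.map_nil, Bool.not_true, Bool.not_false,
      List.append_assoc, List.cons_append, List.nil_append] at e1
    refine ⟨?_, ?_, Or.inr ⟨b.map not, true :: false :: false :: a.map not, SR.mk' ?_ hb hβ (by simp)
      (by simp), hl⟩, a, b, [false, true, true, false, false], fm, by rw [e1]; simp, rfl⟩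
    · rw [e1]; exact st_of dn
    · rw [e1]
      have := en_of (l := b.map not ++ [false, true, true, false]) up
      simpa using this
    · rw [e1]
  · have k1 := fm.node (Z := .nil △ .nil) (by rw [Tsq.ht_node, hn]; omega)
    have e : (w 5).1 = S △ (.nil △ .nil) := h.word 5 (by norm_num)
    rw [← e] at k1
    have e1 := k1.wdT
    simp only [wd, List.map_append, List.map_cons, List.map_nil, Bool.not_true, Bool.not_false,
      List.append_assoc, List.cons_append, List.nil_append] at e1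
    refine ⟨?_, ?_, Or.inr ⟨b.map not ++ [true], false :: false :: a.map not, SR.mk' ?_ (hb.snoc hβ) rfl
      (by simp) (by simp), by simp at hl ⊢; omega⟩, a, b, [true, false, true, false, false], fm, by rw [e1]; simp, rfl⟩
    · rw [e1]; exact st_of dn
    · rw [e1]
      have := en_of (l := b.map not ++ [true, false, true, false]) up
      simpa using this
    · rw [e1]; simp

/-! ### Words which are not inner words -/

variable {x : X k}

/-- not `() Y` -/
theorem Sh.not_first (h : Sh S x) {Y : BinaryTree Unit} : x.1 ≠ .nil △ Y := by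
  intro e
  have e1 : wd x.1 = true :: false :: wd Y := by rw [e, wd_node]; simp [wd]
  rcases h.st with ⟨v, hv⟩ | ⟨v, hv⟩ <;> rw [e1] at hv <;> simp at hv

/-- not `Y ()` -/
theorem Sh.not_last (h : Sh S x) {Y : BinaryTree Unit} : x.1 ≠ app Y (.nil △ .nil) := by
  intro e
  have e1 : wd x.1 = wd Y ++ [true, false] := by rw [e, wd_app, wd_node]; simp [wd]
  rcases h.en with ⟨v, hv⟩ | ⟨v, hv⟩ <;> rw [e1] at hv <;>
    · have h5 := congrArg List.reverse hv
      simp at h5

/-- not with first single run `1` -/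
theorem Sh.not_SR (h : Sh S x) {u r : List Bool} {d : Bool} (h' : SR (wd x.1) u true d r) : False := by
  rcases h.sr with ⟨h1, -⟩ | ⟨u', l, h1, -⟩
  · exact h'.not_D2 h1
  · exact absurd (h1.uniq h').2.1 (by simp)

theorem last_hg {P : BinaryTree Unit} (h : hg 2 P) : (wd P).getLastD false ≠ true := by
  by_cases h0 : P = .nil
  · subst h0
    simp [wd]
  · obtain ⟨v, hv⟩ := hg_end (by norm_num) h h0
    rw [hv, show List.replicate 2 false = [false] ++ [false] from rfl, ← List.append_assoc,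
      List.getLastD_concat]
    simp

/-- not `P () Z` -/
theorem Sh.not_bead (h : Sh S x) {P Z : BinaryTree Unit} (hP : hg 2 P) : x.1 ≠ app P (.nil △ Z) := by
  intro e
  refine h.not_SR (u := wd P) (d := false) (r := wd Z) ⟨?_, D2_hg hP, last_hg hP, by simp⟩
  rw [e, wd_app, wd_node]
  simp [wd]

/-- not `P (Q () Z) Y` -/
theorem Sh.not_bead2 (h : Sh S x) {P Q Z Y : BinaryTree Unit} (hP : hg 2 P) (hQ : Gd Q) :
    x.1 ≠ app P (app Q (.nil △ Z) △ Y) := by
  intro e
  refine h.not_SR (u := wd P ++ (true :: wd Q)) (d := false) (r := wd Z ++ false :: wd Y)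
    ⟨?_, (D2_hg hP).app hQ.cons, ?_, by simp⟩
  · rw [e, wd_app, wd_node, wd_app, wd_node]
    simp [wd]
  · obtain ⟨v, hv⟩ := hQ.stop
    rw [hv, show wd P ++ (true :: ((v ++ [false]) ++ [false])) =
      (wd P ++ (true :: (v ++ [false]))) ++ [false] by simp, List.getLastD_concat]
    simp

/-- `T(((S))) ≠ t` -/
def N3 (k : ℕ) (S t : BinaryTree Unit) : Prop :=
  ∀ y : X k, y.1 = (S △ .nil) △ .nil → (TT y).1 ≠ t

theorem Sh.not_D2 (h : Sh S x) {t : BinaryTree Unit} (ht : D2 (wd t)) (hn : N3 k S t) : x.1 ≠ t := by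
  intro e
  rcases h.sr with ⟨-, y, hy, rfl⟩ | ⟨u, l, h1, -⟩
  · exact hn y hy e
  · rw [← e] at ht
    exact h1.not_D2 ht

/-- phase rule: in `T S` the last component lies behind the first maximum -/
def TE (S : BinaryTree Unit) : Prop :=
  ∀ a b : List Bool, FM S a b → ∃ (l : List Bool) (A : BinaryTree Unit), a.map not = l ++ wd (A △ .nil)

theorem prime_cut {X A : BinaryTree Unit} {P : List Bool} (h : wd (X △ .nil) = P ++ wd (A △ .nil))
    (hP : P ≠ []) : False := by
  have cX := wd_counts (X △ .nil)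
  have cX' := wd_counts X
  have cA := wd_counts (A △ .nil)
  have nX : (X △ .nil : BinaryTree Unit).numNodes = X.numNodes + 0 + 1 := rfl
  have nA : (A △ .nil : BinaryTree Unit).numNodes = A.numNodes + 0 + 1 := rfl
  have h1 : P.count true + (A.numNodes + 1) = X.numNodes + 1 := by
    have := congrArg (List.count true) h
    rw [List.count_append] at this
    omega
  have h2 : P.count false + (A.numNodes + 1) = X.numNodes + 1 := by
    have := congrArg (List.count false) h
    rw [List.count_append] at this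
    omega
  have hlen : P.length = P.count true + P.count false := by
    have := List.length_eq_countP_add_countP (fun b : Bool => b == true) (l := P)
    rw [this]
    congr 1
    apply List.countP_congr
    intro b _
    cases b <;> simp
  obtain ⟨y, P', rfl⟩ := List.exists_cons_of_ne_nil hP
  have e : wd (X △ .nil) = true :: (wd X ++ [false]) := by rw [wd_node]; simp [wd]
  rw [e, List.cons_append, List.cons.injEq] at h
  obtain ⟨rfl, h⟩ := h
  have h3 : P' = (wd X).take P'.length := by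
    have h4 := congrArg (List.take P'.length) h
    rw [List.take_left' rfl, List.take_append] at h4
    have h5 : P'.length ≤ (wd X).length := by
      have l1 : (wd X).length = X.numNodes + X.numNodes := by
        have := List.length_eq_countP_add_countP (fun b : Bool => b == true) (l := wd X)
        rw [this]
        congr 1
        · exact cX'.1
        · rw [← cX'.2]
          apply List.countP_congr
          intro b _
          cases b <;> simp
      rw [List.length_cons] at hlen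
      omega
    rw [show P'.length - (wd X).length = 0 by omega] at h4
    simpa using h4.symm
  have h6 := wd_take X P'.length
  rw [← h3] at h6
  simp at h1 h2
  omega

theorem Sh.not_one (h : Sh S x) (hT : TE S) {Y : BinaryTree Unit} : x.1 ≠ Y △ .nil := by
  intro e
  obtain ⟨a, b, m, fm, hw, hm⟩ := h.te
  obtain ⟨l, A, hA⟩ := hT a b fm
  rw [e, hA] at hw
  refine prime_cut (X := Y) (A := A) (P := b.map not ++ (m ++ l)) (by rw [hw]; simp only [List.append_assoc]) ?_
  intro h0
  have := congrArg List.length h0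
  simp at this
  rw [this.2.1] at hm
  simp at hm

end JVI

open JVI SRun H1

variable {k : ℕ} {S : BinaryTree Unit} {F F' : Set (Cyc k)} {g g' : DG k}

theorem Is9.sh (h : Is9 .nil .nil S F g) (h1 : ∀ x ∈ cont S, 2 ≤ x) (h3 : 3 ≤ OddHC.ht S) {p : X k × X k}
    (hp : p ∈ g.arcs) {x : X k} (hx : x ∈ innA p) : Sh S x := by
  obtain ⟨w, hD, rfl, rfl⟩ := h
  have key : ∀ i, (i = 3 ∨ i = 4 ∨ i = 5) → p.1 = w i → Sh S x := by
    intro i hi e
    have hx' : x = TT p.1 := hx
    rw [hx', e]
    exact shape h1 h3 hD hi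
  rcases hp with e | e | e
  · exact key 3 (by simp) (by rw [e])
  · exact key 4 (by simp) (by rw [e])
  · exact key 5 (by simp) (by rw [e])

/-- **I-JV-L** (general: `()^q (R) ()^p` and its two new words) -/
theorem Is9.inner_L (h : Is9 .nil .nil S F g) (h1 : ∀ x ∈ cont S, 2 ≤ x) (h3 : 3 ≤ OddHC.ht S)
    {a b : ℕ} {R' : BinaryTree Unit} (h' : IsTri (lp (b + 1)) R' (lp (a + 1)) F' g') :
    ∀ p ∈ g.arcs, ∀ w ∈ innA p, w ∉ g'.B := by
  intro p hp x hx hw
  have hs := h.sh h1 h3 hp hx
  have hl : ∀ n, lp (n + 1) = app (lp n) (.nil △ .nil) := by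
    intro n
    induction n with
    | zero => rfl
    | succ n ih =>
      change BinaryTree.nil △ lp (n + 1) = _
      conv_lhs => rw [ih]
      rfl
  rcases h'.words _ hw with e | ⟨_, e | e⟩
  · exact hs.not_first (Y := w1 (lp b) R' (lp (a + 1))) e
  · have e1 : w1 R' (lp (a + 1)) (lp (b + 1)) =
        app (app R' (lp (a + 1) △ lp b)) (.nil △ .nil) := by
      unfold w1
      rw [hl b, app_assoc]
      rfl
    rw [e1] at e
    exact hs.not_last e
  · exact hs.not_first (Y := w1 (lp a) (lp (b + 1)) R') e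

theorem Is9.inner_TyL (h : Is9 .nil .nil S F g) (h1 : ∀ x ∈ cont S, 2 ≤ x) (h3 : 3 ≤ OddHC.ht S)
    (h' : TyL F' g') : ∀ p ∈ g.arcs, ∀ w ∈ innA p, w ∉ g'.B := by
  obtain ⟨R', e, -, -, -, -, ht⟩ := h'
  exact h.inner_L (a := 0) (b := 0) h1 h3 ht

/-- **I-JV-E**: E triples whose host is not an inner word -/
theorem Is9.inner_E' (h : Is9 .nil .nil S F g) (h1 : ∀ x ∈ cont S, 2 ≤ x) (h3 : 3 ≤ OddHC.ht S)
    {Y : BinaryTree Unit} (h' : IsTri .nil Y .nil F' g')
    (hY : ∀ p ∈ g.arcs, ∀ w ∈ innA p, w.1 ≠ Y △ .nil) : ∀ p ∈ g.arcs, ∀ w ∈ innA p, w ∉ g'.B := by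
  intro p hp x hx hw
  have hs := h.sh h1 h3 hp hx
  rcases h'.words _ hw with e | ⟨_, e | e⟩
  · exact hY p hp x hx e
  · exact hs.not_last (Y := Y) e
  · exact hs.not_first (Y := Y) e

/-- **I-JV-E**, rule TE: no condition on the E triple -/
theorem Is9.inner_E (h : Is9 .nil .nil S F g) (h1 : ∀ x ∈ cont S, 2 ≤ x) (h3 : 3 ≤ OddHC.ht S) (hT : TE S)
    (h' : TyE F' g') : ∀ p ∈ g.arcs, ∀ w ∈ innA p, w ∉ g'.B := by
  obtain ⟨j, r, f, -, -, ht⟩ := h'
  exact h.inner_E' h1 h3 ht fun p hp x hx => (h.sh h1 h3 hp hx).not_one hT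

/-- **I-JV-S5** -/
theorem Is9.inner_S5 (h : Is9 .nil .nil S F g) (h1 : ∀ x ∈ cont S, 2 ≤ x) (h3 : 3 ≤ OddHC.ht S)
    (h' : TyS5 F' g') : ∀ p ∈ g.arcs, ∀ w ∈ innA p, w ∉ g'.B := by
  obtain ⟨s, n, hs3, hn, ht⟩ := h'
  intro p hp x hx hw
  have hs := h.sh h1 h3 hp hx
  have hl : ∀ n, lp (n + 1) = app (lp n) (.nil △ .nil) := by
    intro n
    induction n with
    | zero => rfl
    | succ n ih =>
      change BinaryTree.nil △ lp (n + 1) = _
      conv_lhs => rw [ih]
      rfl
  rcases ht with ht | ht | ht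
  · rcases ht.words _ hw with e | ⟨_, e | e⟩
    · exact hs.not_first (Y := w1 (lp (n + 1)) (ch s) .nil) e
    · -- `[s] () ()^(n+2)`
      have e1 : w1 (ch s) .nil (lp (n + 2)) = app (app (ch s) (.nil △ lp (n + 1))) (.nil △ .nil) := by
        unfold w1
        rw [hl (n + 1), app_assoc]
        rfl
      rw [e1] at e
      exact hs.not_last e
    · -- `(()^(n+2)) [s]`
      have e1 : wd x.1 = true :: true :: false :: true :: false :: (wd (lp n) ++ false :: wd (ch s)) := by
        rw [e]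
        change wd (lp (n + 2) △ ch s) = _
        rw [wd_node]
        change true :: (wd (.nil △ (.nil △ lp n)) ++ false :: wd (ch s)) = _
        rw [wd_node, wd_node]
        simp [wd]
      rcases hs.st with ⟨v, hv⟩ | ⟨v, hv⟩ <;> rw [e1] at hv <;> simp at hv
  · rcases ht.words _ hw with e | ⟨_, e | e⟩
    · -- `([s]) ()^(n+2)`
      have e1 : w1 .nil (ch s) (lp (n + 2)) = app (ch s △ lp (n + 1)) (.nil △ .nil) := by
        unfold w1
        rw [hl (n + 1)]
        rfl
      rw [e1] at e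
      exact hs.not_last e
    · -- `[s] (()^(n+2))`
      have e1 : wd x.1 = (wd (ch s) ++ (true :: wd (lp n))) ++ [true, false, true, false, false] := by
        rw [e]
        change wd (app (ch s) (lp (n + 2) △ .nil)) = _
        rw [wd_app, wd_node, hl (n + 1), hl n, wd_app, wd_app]
        simp [wd]
      rcases hs.en with ⟨v, hv⟩ | ⟨v, hv⟩ <;> rw [e1] at hv <;>
        · have h5 := congrArg List.reverse hv
          simp at h5
    · exact hs.not_first (Y := w1 (lp (n + 1)) .nil (ch s)) e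
  · rcases ht.words _ hw with e | ⟨_, e | e⟩
    · exact hs.not_first (Y := w1 .nil (app (ch s) (lp n)) (ch 2)) e
    · have e1 : w1 (app (ch s) (lp n)) (ch 2) (lp 1) =
          app (app (app (ch s) (lp n)) (ch 2 △ .nil)) (.nil △ .nil) :=
        (app_assoc (app (ch s) (lp n)) (ch 2 △ .nil) (.nil △ .nil)).symm
      rw [e1] at e
      exact hs.not_last e
    · -- `[2] .. ` : `(()) (()) [s] ()^n`
      obtain ⟨m, rfl⟩ : ∃ m, n = m + 1 := ⟨n - 1, by omega⟩
      have e1 : w1 (ch 2) (lp 1) (app (ch s) (lp (m + 1))) =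
          app (app (ch 2) (lp 1 △ app (ch s) (lp m))) (.nil △ .nil) := by
        unfold w1
        rw [hl m, app_assoc]
        change app (ch 2) (lp 1 △ app (ch s) (app (lp m) (.nil △ .nil))) = app (ch 2) (lp 1 △ app (app (ch s) (lp m)) (.nil △ .nil))
        rw [app_assoc]
      rw [e1] at e
      exact hs.not_last e

theorem hg_lp0 {P : BinaryTree Unit} (h : hg 2 P) : hg 2 (app P (lp 0)) := by
  rw [show lp 0 = .nil from rfl, app_nil]
  exact h

theorem hg_ch {c : ℕ} (hc : 2 ≤ c) : hg 2 (ch c) := by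
  apply hg_of_cont le_rfl
  obtain ⟨c, rfl⟩ : ∃ c', c = c' + 1 := ⟨c - 1, by omega⟩
  rw [ch_cont]
  intro x hx
  rw [Multiset.mem_singleton.1 hx]
  exact hc

/-- **I-JV-K'** (`()(R)`, `R()()`, `(())R`) with `R = P ()^m`, `P` without part 1: only `T(((S))) = (())P` for `m = 0` -/
theorem Is9.inner_Km (h : Is9 .nil .nil S F g) (h1 : ∀ x ∈ cont S, 2 ≤ x) (h3 : 3 ≤ OddHC.ht S)
    {P : BinaryTree Unit} {m : ℕ} (hP : hg 2 P) (h' : TyK' (app P (lp m)) F' g')
    (hn : m = 0 → N3 k S ((.nil △ .nil) △ P)) : ∀ p ∈ g.arcs, ∀ w ∈ innA p, w ∉ g'.B := by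
  intro p hp x hx hw
  have hs := h.sh h1 h3 hp hx
  rcases IsTri.words h' _ hw with e | ⟨_, e | e⟩
  · exact hs.not_first (Y := app P (lp m) △ .nil) e
  · have e1 : w1 (app P (lp m)) .nil (.nil △ .nil) =
        app (app (app P (lp m)) (.nil △ .nil)) (.nil △ .nil) :=
      (app_assoc (app P (lp m)) (.nil △ .nil) (.nil △ .nil)).symm
    rw [e1] at e
    exact hs.not_last e
  · have e1 : w1 .nil (.nil △ .nil) (app P (lp m)) = app ((.nil △ .nil) △ P) (lp m) := rfl
    rw [e1] at e
    have hP' : hg 2 ((.nil △ .nil) △ P) := ⟨Or.inl rfl, hP⟩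
    rcases m with _ | m
    · rw [show lp 0 = .nil from rfl, app_nil] at e
      exact hs.not_D2 (D2_hg hP') (hn rfl) e
    · exact hs.not_bead (Z := lp m) hP' e

/-- **I-JV-K** (`(R)()`, `R(())`, `()()R`), `R = P () Z`: no condition -/
theorem Is9.inner_K1 (h : Is9 .nil .nil S F g) (h1 : ∀ x ∈ cont S, 2 ≤ x) (h3 : 3 ≤ OddHC.ht S)
    {P Z : BinaryTree Unit} (hP : hg 2 P) (h' : TyK (app P (.nil △ Z)) F' g') :
    ∀ p ∈ g.arcs, ∀ w ∈ innA p, w ∉ g'.B := by
  intro p hp x hx hw
  have hs := h.sh h1 h3 hp hx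
  rcases IsTri.words h' _ hw with e | ⟨_, e | e⟩
  · exact hs.not_last (Y := app P (.nil △ Z) △ .nil) e
  · have e1 : w1 (app P (.nil △ Z)) (.nil △ .nil) .nil =
        app P (.nil △ app Z ((.nil △ .nil) △ .nil)) := by
      unfold w1
      rw [app_assoc]
      rfl
    rw [e1] at e
    exact hs.not_bead hP e
  · exact hs.not_first (Y := .nil △ app P (.nil △ Z)) e

/-- **I-JV-K**, `R` without part 1: only `T(((S))) = R(())` -/
theorem Is9.inner_K2 (h : Is9 .nil .nil S F g) (h1 : ∀ x ∈ cont S, 2 ≤ x) (h3 : 3 ≤ OddHC.ht S)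
    {P : BinaryTree Unit} (hP : hg 2 P) (h' : TyK P F' g') (hn : N3 k S (app P ((.nil △ .nil) △ .nil))) :
    ∀ p ∈ g.arcs, ∀ w ∈ innA p, w ∉ g'.B := by
  intro p hp x hx hw
  have hs := h.sh h1 h3 hp hx
  rcases IsTri.words h' _ hw with e | ⟨_, e | e⟩
  · exact hs.not_last (Y := P △ .nil) e
  · have h5 : hg 2 ((.nil △ .nil) △ .nil) := ⟨Or.inl rfl, trivial⟩
    exact hs.not_D2 (D2_hg (hg_app hP h5)) hn e
  · exact hs.not_first (Y := .nil △ P) e

/-- **I-JV-Cr** (`(R)[c]`, `R[c+1]`, `[c]()R`), `R = P ()^m`: only `T(((S)))` for `m = 0` -/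
theorem Is9.inner_Cr (h : Is9 .nil .nil S F g) (h1 : ∀ x ∈ cont S, 2 ≤ x) (h3 : 3 ≤ OddHC.ht S)
    {P : BinaryTree Unit} {c m : ℕ} (hP : Gd P) (hc : 2 ≤ c) (h' : TyC c (app P (lp m)) F' g')
    (hn : m = 0 → N3 k S (P △ ch c) ∧ N3 k S (app P (ch (c + 1)))) :
    ∀ p ∈ g.arcs, ∀ w ∈ innA p, w ∉ g'.B := by
  intro p hp x hx hw
  have hs := h.sh h1 h3 hp hx
  rcases IsTri.words h' _ hw with e | ⟨_, e | e⟩
  · have e1 : w1 .nil (app P (lp m)) (ch c) = app P (lp m) △ ch c := rfl
    rw [e1] at e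
    rcases m with _ | m
    · rw [show lp 0 = .nil from rfl, app_nil] at e
      have h5 : hg 2 (P △ ch c) := ⟨Or.inr ⟨hP.ne, hP.hg⟩, hg_ch hc⟩
      exact hs.not_D2 (D2_hg h5) (hn rfl).1 e
    · exact hs.not_bead2 (P := .nil) (Z := lp m) (Y := ch c) trivial hP e
  · have e1 : w1 (app P (lp m)) (ch c) .nil = app (app P (lp m)) (ch (c + 1)) := rfl
    rw [e1] at e
    rcases m with _ | m
    · rw [show lp 0 = .nil from rfl, app_nil] at e
      exact hs.not_D2 (D2_hg (hg_app hP.hg (hg_ch (by omega)))) (hn rfl).2 e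
    · rw [app_assoc] at e
      exact hs.not_bead (Z := app (lp m) (ch (c + 1))) hP.hg e
  · exact hs.not_bead (Z := app P (lp m)) (hg_ch hc) e

/-- **I-JV-Cl** (`[c](R)`, `R()[c]`, `[c+1]R`), `R = P ()^m`: only `T(((S)))` for `m = 0` -/
theorem Is9.inner_Cl (h : Is9 .nil .nil S F g) (h1 : ∀ x ∈ cont S, 2 ≤ x) (h3 : 3 ≤ OddHC.ht S)
    {P : BinaryTree Unit} {c m : ℕ} (hP : Gd P) (hc : 2 ≤ c) (h' : TyC' c (app P (lp m)) F' g')
    (hn : m = 0 → N3 k S (app (ch c) (P △ .nil)) ∧ N3 k S (ch c △ P)) :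
    ∀ p ∈ g.arcs, ∀ w ∈ innA p, w ∉ g'.B := by
  intro p hp x hx hw
  have hs := h.sh h1 h3 hp hx
  rcases IsTri.words h' _ hw with e | ⟨_, e | e⟩
  · have e1 : w1 (ch c) (app P (lp m)) .nil = app (ch c) (app P (lp m) △ .nil) := rfl
    rw [e1] at e
    rcases m with _ | m
    · rw [show lp 0 = .nil from rfl, app_nil] at e
      have h5 : hg 2 (P △ .nil) := ⟨Or.inr ⟨hP.ne, hP.hg⟩, trivial⟩
      exact hs.not_D2 (D2_hg (hg_app (hg_ch hc) h5)) (hn rfl).1 e
    · exact hs.not_bead2 (Z := lp m) (Y := .nil) (hg_ch hc) hP e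
  · have e1 : w1 (app P (lp m)) .nil (ch c) = app (app P (lp m)) (.nil △ ch c) := rfl
    rw [e1] at e
    rcases m with _ | m
    · rw [show lp 0 = .nil from rfl, app_nil] at e
      exact hs.not_bead hP.hg e
    · rw [app_assoc] at e
      exact hs.not_bead (Z := app (lp m) (.nil △ ch c)) hP.hg e
  · have e1 : w1 .nil (ch c) (app P (lp m)) = app (ch c △ P) (lp m) := rfl
    rw [e1] at e
    have hP' : hg 2 (ch c △ P) := ⟨(hg_ch (c := c + 1) (by omega)).1, hP.hg⟩
    rcases m with _ | m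
    · rw [show lp 0 = .nil from rfl, app_nil] at e
      exact hs.not_D2 (D2_hg hP') (hn rfl).2 e
    · exact hs.not_bead (Z := lp m) hP' e

end Pool.OddHC
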