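import Pool.Agent.Work.MP_8f87b2_h37.JVi2

/-!
MP_8f87b2_co: the inner word `T(((S)))` of JV ends with `[c]` only if `T S` ends with `[c]`. With this the rows JV - Cr for
`m = 0`; for two solitons the condition `T S ≠ [s][c]` is enough.
-/

set_option autoImplicit false

namespace Pool.OddHC

open Finset Equiv BinaryTree Pool.Agent.Work.MP_8f87b2_co

namespace JVI

open SRun H1

variable {k : ℕ} {S : BinaryTree Unit}

/-- the words `T(((S)))` and `T S` -/
theorem two_words (h1 : ∀ x ∈ cont S, 2 ≤ x) (h3' : 3 ≤ OddHC.ht S) {y : X k} (hy : y.1 = (S △ .nil) △ .nil) :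
    ∃ a b : List Bool, FM S a b ∧ wd (TT y).1 = b.map not ++ ([true, true, false, false, false] ++ a.map not) ∧
      (∃ l, a.map not = false :: l) ∧
      ∀ (j : ℕ) (z : X j), z.1 = S → wd (TT z).1 = b.map not ++ false :: a.map not := by
  have hS : Gd S := gd h1 h3'
  have h3 : 3 ≤ Tsq.ht S := by rw [H1.ht_eq]; exact h3'
  obtain ⟨a, b, fm, hb, ⟨β, hβ⟩, hl, x, l, hx⟩ := hS.fm h3
  have hn : Tsq.ht (.nil : BinaryTree Unit) = 0 := rfl
  have k1 := (fm.node (Z := .nil) (by rw [hn]; omega)).node (Z := .nil) (by rw [hn]; omega)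
  rw [← hy] at k1
  have e1 := k1.wdT
  simp only [wd, List.map_append, List.map_cons, List.map_nil, Bool.not_true, Bool.not_false,
    List.append_assoc, List.cons_append, List.nil_append] at e1
  refine ⟨a, b, fm, by rw [e1]; simp, ⟨x :: l, hx⟩, ?_⟩
  intro j z hz
  rw [← hz] at fm
  exact fm.wdT

/-- levels of the first part -/
theorem be_level {a b : List Bool} (fm : FM S a b) (m : ℕ) :
    ((b.map not).take m).count true ≤ ((b.map not).take m).count false + Tsq.ht S := by
  rw [← List.map_take, Tsq.count_not_true, Tsq.count_not_false]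
  have h1 := wd_take S (a.length + 1 + m)
  rw [fm.eq] at h1
  have e2 : (a ++ true :: b).take (a.length + 1 + m) = a ++ true :: b.take m := by
    rw [List.take_append, List.take_of_length_le (by omega),
      show a.length + 1 + m - a.length = m + 1 by omega, List.take_succ_cons]
  rw [e2] at h1
  have h4 := fm.top
  simp at h1
  omega

theorem be_end {a b : List Bool} (fm : FM S a b) :
    (b.map not).count true = (b.map not).count false + Tsq.ht S := by
  rw [Tsq.count_not_true, Tsq.count_not_false]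
  have h1 := wd_counts S
  rw [fm.eq] at h1
  have h4 := fm.top
  simp at h1
  omega

/-- a tree word as a suffix -/
theorem suffix_tree {t A : BinaryTree Unit} {l : List Bool} (h : wd t = l ++ wd A) :
    ∃ Z, t = app Z A ∧ wd Z = l := by
  have e : wd (Tsq.mir t) = wd (Tsq.mir A) ++ (l.map not).reverse := by
    rw [Tsq.wd_mir, Tsq.wd_mir, h]
    simp
  obtain ⟨z, -, hz'⟩ := prefix_tree e
  have e2 : wd (Tsq.mir z) = l := by
    rw [Tsq.wd_mir, hz']
    simp [Function.comp_def]
  exact ⟨Tsq.mir z, wd_ext (by rw [h, wd_app, e2]), e2⟩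

/-- `T(((S))) = P [c]`, `c` below its height: `T S` ends with `[c]` -/
theorem N3_last (h1 : ∀ x ∈ cont S, 2 ≤ x) (h3 : 3 ≤ OddHC.ht S) {y : X k} (hy : y.1 = (S △ .nil) △ .nil)
    {P : BinaryTree Unit} {c : ℕ} (hc : 2 ≤ c) (hcS : c ≤ OddHC.ht S + 1) (e : (TT y).1 = app P (ch c)) :
    ∃ a b l : List Bool, FM S a b ∧ a.map not = l ++ wd (ch c) ∧
      wd P = b.map not ++ ([true, true, false, false, false] ++ l) ∧
      ∀ (j : ℕ) (z : X j), z.1 = S → ∃ Z, (TT z).1 = app Z (ch c) ∧ wd Z = b.map not ++ false :: l := by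
  obtain ⟨a, b, fm, e1, ⟨l0, hl0⟩, hz⟩ := two_words h1 h3 hy
  have e2 : b.map not ++ ([true, true, false, false, false] ++ a.map not) =
      wd P ++ (List.replicate c true ++ List.replicate c false) := by
    rw [← e1, e, wd_app, wd_ch]
  have hend := be_end fm
  have key : ∃ l, a.map not = l ++ wd (ch c) ∧
      wd P = b.map not ++ ([true, true, false, false, false] ++ l) := by
    have e3 : (b.map not ++ [true, true, false, false, false]) ++ a.map not =
        wd P ++ (List.replicate c true ++ List.replicate c false) := by rw [← e2]; simp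
    rcases List.append_eq_append_iff.1 e3 with ⟨u, hu1, hu2⟩ | ⟨u, hu1, hu2⟩
    · -- `[c]` lies in `al`
      exact ⟨u, by rw [hu2, wd_ch], by rw [hu1]; simp⟩
    · exfalso
      -- `be 11000 = wd P ++ u`, `1^c 0^c = u ++ al`, `al` starts with `0`
      rw [hl0] at hu2
      -- `u = 1^c 0^i`
      have hu : ∃ i, i ≤ c ∧ u = List.replicate c true ++ List.replicate i false := by
        rcases List.append_eq_append_iff.1 hu2 with ⟨v, hv1, hv2⟩ | ⟨v, hv1, hv2⟩
        · -- `u = 1^c ++ v`, `0^c = v ++ 0 l0`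
          have hv3 : v = List.replicate v.length false := by
            rw [List.eq_replicate_iff]
            refine ⟨rfl, ?_⟩
            intro b hb
            have : b ∈ List.replicate c false := by
              rw [hv2]; exact List.mem_append_left _ hb
            exact (List.mem_replicate.1 this).2
          refine ⟨v.length, ?_, by rw [← hv3]; exact hv1⟩
          have := congrArg List.length hv2
          simp at this
          omega
        · -- `1^c = u ++ v`, `0 l0 = v ++ 0^c`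
          rcases v with _ | ⟨x, v⟩
          · exact ⟨0, by omega, by rw [← List.append_nil u, ← hv1]; simp⟩
          · exfalso
            rw [List.cons_append, List.cons.injEq] at hv2
            have : x ∈ List.replicate c true := by
              rw [hv1]; simp
            have := (List.mem_replicate.1 this).2
            rw [← hv2.1] at this
            exact absurd this (by simp)
      obtain ⟨i, hi, rfl⟩ := hu
      -- the number of zeros at the end
      have hi3 : i = 3 := by
        have h5 := congrArg List.reverse hu1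
        simp only [List.reverse_append, List.reverse_cons, List.reverse_nil, List.nil_append,
          List.cons_append, List.reverse_replicate] at h5
        obtain ⟨c', rfl⟩ : ∃ c', c = c' + 1 := ⟨c - 1, by omega⟩
        rcases i with _ | _ | _ | _ | i
        · simp [List.replicate_succ] at h5
        · simp [List.replicate_succ] at h5
        · simp [List.replicate_succ] at h5
        · rfl
        · simp [List.replicate_succ] at h5
      subst hi3
      have hP := wd_counts P
      have h6 := congrArg (List.count true) hu1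
      have h7 := congrArg (List.count false) hu1
      simp only [List.count_append, List.count_cons, List.count_nil, List.count_replicate] at h6 h7
      simp at h6 h7
      rw [H1.ht_eq] at hend
      omega
  obtain ⟨l, hl1, hl2⟩ := key
  refine ⟨a, b, l, fm, hl1, hl2, ?_⟩
  intro j z hzS
  have e5 := hz j z hzS
  rw [hl1] at e5
  have e6 : wd (TT z).1 = (b.map not ++ false :: l) ++ wd (ch c) := by rw [e5]; simp
  obtain ⟨Z, hZ1, hZ2⟩ := suffix_tree e6
  exact ⟨Z, hZ1, hZ2⟩

/-- `T S` does not end with `[c]` -/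
def NE (S : BinaryTree Unit) (c : ℕ) : Prop :=
  ∀ (j : ℕ) (z : X j), z.1 = S → ∀ Z, (TT z).1 ≠ app Z (ch c)

/-- `T S ≠ [s][c]` -/
def NE2 (S : BinaryTree Unit) (s c : ℕ) : Prop :=
  ∀ (j : ℕ) (z : X j), z.1 = S → (TT z).1 ≠ app (ch s) (ch c)

theorem ht_two {y : X k} (h3 : 3 ≤ OddHC.ht S) (hy : y.1 = (S △ .nil) △ .nil) :
    OddHC.ht (TT y).1 = OddHC.ht S + 2 := by
  have n0 : OddHC.ht (.nil : BinaryTree Unit) = 0 := rfl
  rw [OddHC.ht_eq, cont_TT, ← OddHC.ht_eq, hy, ht_node, ht_node, n0]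
  omega

theorem count_raise2 (M : Multiset ℕ) : (raise (raise M)).count (M.sup + 2) = 1 := by
  have e : raise (raise M) = (M.sup + 1 + 1) ::ₘ M.erase M.sup := by
    have h : (raise M).erase (M.sup + 1) = M.erase M.sup := by
      unfold raise
      rw [Multiset.erase_cons_head]
    conv_lhs => unfold raise
    rw [show (M.sup + 1) ::ₘ M.erase M.sup = raise M from rfl, sup_raise, h]
  rw [e, Multiset.count_cons_self]
  have : (M.erase M.sup).count (M.sup + 1 + 1) = 0 := by
    rw [Multiset.count_eq_zero]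
    intro h
    have := Multiset.le_sup (Multiset.mem_of_mem_erase h)
    omega
  rw [this]

/-- `T(((S))) = (P)[c]` only if `T S` ends with `[c]` -/
theorem n3_host (h1 : ∀ x ∈ cont S, 2 ≤ x) (h3 : 3 ≤ OddHC.ht S) {P : BinaryTree Unit} {c : ℕ} (hc : 2 ≤ c)
    (hcP : c + 1 ≤ OddHC.ht P) (hn : NE S c) : N3 k S (P △ ch c) := by
  intro y hy e
  have h5 := ht_two h3 hy
  rw [e, ht_node, ch_ht] at h5
  obtain ⟨a, b, l, -, -, -, h6⟩ := N3_last (P := P △ .nil) h1 h3 hy hc (by omega) e
  have hnum : ∃ z : X S.numNodes, z.1 = S := ⟨⟨S, mem_treesOfNumNodesEq.2 rfl⟩, rfl⟩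
  obtain ⟨z, hz⟩ := hnum
  obtain ⟨Z, hZ, -⟩ := h6 _ z hz
  exact hn _ z hz Z hZ

/-- `T(((S))) = P[c+1]` only if `T S` ends with `[c+1]` -/
theorem n3_new (h1 : ∀ x ∈ cont S, 2 ≤ x) (h3 : 3 ≤ OddHC.ht S) {P : BinaryTree Unit} {c : ℕ} (hc : 2 ≤ c)
    (hcP : c + 1 ≤ OddHC.ht P) (hn : NE S (c + 1)) : N3 k S (app P (ch (c + 1))) := by
  intro y hy e
  have h5 := ht_two h3 hy
  rw [e, ht_app, ch_ht] at h5
  rcases Nat.lt_or_ge (c + 1) (OddHC.ht S + 2) with h7 | h7
  · obtain ⟨a, b, l, -, -, -, h6⟩ := N3_last (P := P) h1 h3 hy (by omega) (by omega) e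
    have hnum : ∃ z : X S.numNodes, z.1 = S := ⟨⟨S, mem_treesOfNumNodesEq.2 rfl⟩, rfl⟩
    obtain ⟨z, hz⟩ := hnum
    obtain ⟨Z, hZ, -⟩ := h6 _ z hz
    exact hn _ z hz Z hZ
  · have e1 := cont_TT y
    rw [e, hy, cont_app, ch_cont, cont_node, cont_node, cont_nil, add_zero, add_zero] at e1
    have e2 := count_raise2 (cont S)
    rw [← e1, Multiset.count_add, ← OddHC.ht_eq, show c + 1 = OddHC.ht S + 2 by omega,
      Multiset.count_singleton_self] at e2
    have e3 : OddHC.ht S + 2 = (cont P).sup := by rw [← OddHC.ht_eq]; omega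
    have e4 : cont P ≠ 0 := by
      intro h
      rw [h, Multiset.sup_zero] at e3
      exact absurd e3 (by simp)
    have e5 := Multiset.count_pos.2 (sup_mem e4)
    rw [← e3] at e5
    omega

theorem ch_split {n : ℕ} {u l : List Bool}
    (h : wd (ch n) = u ++ ([true, true, false, false, false] ++ l)) {Z : BinaryTree Unit}
    (hZ : wd Z = u ++ false :: l) : Z = ch (n - 2) := by
  rw [wd_ch] at h
  have hs : (List.replicate n true ++ List.replicate n false).Pairwise (fun a b => b = true → a = true) := by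
    rw [List.pairwise_append]
    refine ⟨?_, ?_, ?_⟩
    · rw [List.pairwise_replicate]
      exact Or.inr fun h => h
    · rw [List.pairwise_replicate]
      exact Or.inr fun h => h
    · intro a ha b hb _
      exact (List.mem_replicate.1 ha).2
  rw [h, List.pairwise_append] at hs
  obtain ⟨-, h2, h3⟩ := hs
  have hu : u = List.replicate u.length true := by
    rw [List.eq_replicate_iff]
    exact ⟨rfl, fun b hb => h3 b hb true (by simp) rfl⟩
  have hl : l = List.replicate l.length false := by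
    rw [List.eq_replicate_iff]
    refine ⟨rfl, ?_⟩
    intro b hb
    rw [List.pairwise_append] at h2
    have := h2.2.2 false (by simp) b hb
    cases b with
    | false => rfl
    | true => exact absurd (this rfl) (by simp)
  have c1 := congrArg (List.count true) h
  have c2 := congrArg (List.count false) h
  rw [hu, hl] at c1 c2
  simp [List.count_replicate] at c1 c2
  apply wd_ext
  rw [hZ, wd_ch, hu, hl, ← List.replicate_succ]
  congr 2 <;> omega

/-- two solitons: `T(((S))) = [s+1][c]` only if `T S = [s-1][c]` -/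
theorem n3_host2 (h1 : ∀ x ∈ cont S, 2 ≤ x) (h3 : 3 ≤ OddHC.ht S) {s c : ℕ} (hc : 2 ≤ c)
    (hcP : c + 1 ≤ s) (hn : NE2 S (s - 1) c) : N3 k S (ch s △ ch c) := by
  intro y hy e
  have h5 := ht_two h3 hy
  rw [e, ht_node, ch_ht, ch_ht] at h5
  obtain ⟨a, b, l, -, -, h7, h6⟩ := N3_last (P := ch s △ .nil) h1 h3 hy hc (by omega) e
  have hnum : ∃ z : X S.numNodes, z.1 = S := ⟨⟨S, mem_treesOfNumNodesEq.2 rfl⟩, rfl⟩
  obtain ⟨z, hz⟩ := hnum
  obtain ⟨Z, hZ, hZ2⟩ := h6 _ z hz
  have h8 := ch_split (n := s + 1) h7 hZ2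
  rw [h8] at hZ
  exact hn _ z hz hZ

/-- two solitons: `T(((S))) = [s][c+1]` only if `T S = [s-2][c+1]` -/
theorem n3_new2 (h1 : ∀ x ∈ cont S, 2 ≤ x) (h3 : 3 ≤ OddHC.ht S) {s c : ℕ} (hc : 2 ≤ c)
    (hcP : c + 1 ≤ s) (hn : NE2 S (s - 2) (c + 1)) : N3 k S (app (ch s) (ch (c + 1))) := by
  intro y hy e
  have h5 := ht_two h3 hy
  have h5' := h5
  rw [e, ht_app, ch_ht, ch_ht] at h5
  rcases Nat.lt_or_ge (c + 1) (OddHC.ht S + 2) with h9 | h9
  · obtain ⟨a, b, l, -, -, h7, h6⟩ := N3_last (P := ch s) h1 h3 hy (by omega) (by omega) e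
    have hnum : ∃ z : X S.numNodes, z.1 = S := ⟨⟨S, mem_treesOfNumNodesEq.2 rfl⟩, rfl⟩
    obtain ⟨z, hz⟩ := hnum
    obtain ⟨Z, hZ, hZ2⟩ := h6 _ z hz
    have h8 := ch_split h7 hZ2
    rw [h8] at hZ
    exact hn _ z hz hZ
  · have e1 := cont_TT y
    obtain ⟨s', rfl⟩ : ∃ s', s = s' + 1 := ⟨s - 1, by omega⟩
    rw [e, hy, cont_app, ch_cont, ch_cont, cont_node, cont_node, cont_nil, add_zero, add_zero] at e1
    have e2 := count_raise2 (cont S)
    rw [← e1, Multiset.count_add, ← OddHC.ht_eq, show c + 1 = OddHC.ht S + 2 by omega,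
      show s' + 1 = OddHC.ht S + 2 by omega, Multiset.count_singleton_self] at e2
    omega

end JVI

open JVI SRun H1

variable {k : ℕ} {S : BinaryTree Unit} {F F' : Set (Cyc k)} {g g' : DG k}

/-- **I-JV-Cr**, `T S` does not end with `[c]`, `[c+1]` -/
theorem Is9.inner_Cr_NE (h : Is9 .nil .nil S F g) (h1 : ∀ x ∈ cont S, 2 ≤ x) (h3 : 3 ≤ OddHC.ht S)
    {P : BinaryTree Unit} {c m : ℕ} (hP : Gd P) (hc : 2 ≤ c) (hcP : c + 1 ≤ OddHC.ht P)
    (h' : TyC c (app P (lp m)) F' g') (hn : m = 0 → NE S c ∧ NE S (c + 1)) :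
    ∀ p ∈ g.arcs, ∀ w ∈ innA p, w ∉ g'.B :=
  h.inner_Cr h1 h3 hP hc h' fun h0 => ⟨n3_host h1 h3 hc hcP (hn h0).1, n3_new h1 h3 hc hcP (hn h0).2⟩

/-- **I-JV-Cr**, the content link over `[s]`: `T S` is not `[s-1][c]` and not `[s-2][c+1]` -/
theorem Is9.inner_Cr_two (h : Is9 .nil .nil S F g) (h1 : ∀ x ∈ cont S, 2 ≤ x) (h3 : 3 ≤ OddHC.ht S)
    {s c m : ℕ} (hc : 2 ≤ c) (hs : c + 1 ≤ s) (h' : TyC c (app (ch s) (lp m)) F' g')
    (hn : m = 0 → NE2 S (s - 1) c ∧ NE2 S (s - 2) (c + 1)) :
    ∀ p ∈ g.arcs, ∀ w ∈ innA p, w ∉ g'.B :=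
  h.inner_Cr h1 h3 ⟨hg_ch (by omega), ch_ne (by omega)⟩ hc h' fun h0 =>
    ⟨n3_host2 h1 h3 hc hs (hn h0).1, n3_new2 h1 h3 hc hs (hn h0).2⟩

end Pool.OddHC
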